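import Mathlib
import Pool.Agent.Lib.MP_8d00da_gt.h97s.KMain

/-!
# The KLS inequality for log-concave measures with symmetries of small rank and a small common
fixed space
-/

open MeasureTheory

namespace Pool.Agent.Results.MP_8d00da_gt.FixedSpaceKLS

/-- `‖f - ∫ f dμ‖_{L²(μ)} ≤ D · ‖|∇f|‖_{L²(μ)}` for every Lipschitz function `f`.
The Poincaré constant `D_Poin(μ)` of the problem is the least such `D`. -/
def PoincareWith {V : Type*} [NormedAddCommGroup V] [NormedSpace ℝ V] [MeasurableSpace V]
    (μ : Measure V) (D : ℝ) : Prop :=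
  ∀ f : V → ℝ, (∃ L : NNReal, LipschitzWith L f) →
    eLpNorm (fun x => f x - ∫ y, f y ∂μ) 2 μ ≤
      ENNReal.ofReal D * eLpNorm (fun x => ‖fderiv ℝ f x‖) 2 μ

/-- The same inequality tested on linear functions `θ` only (`‖|∇θ|‖_{L²(μ)} = ‖θ‖` for a
probability measure). The constant `D^Lin_Poin(μ)` of the problem is the least such `D`. -/
def LinPoincareWith {V : Type*} [NormedAddCommGroup V] [NormedSpace ℝ V] [MeasurableSpace V]
    (μ : Measure V) (D : ℝ) : Prop :=
  ∀ θ : V →L[ℝ] ℝ, eLpNorm (fun x => θ x - ∫ y, θ y ∂μ) 2 μ ≤ ENNReal.ofReal (D * ‖θ‖)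

/-- `h` is log-concave. -/
def LogConcave {V : Type*} [AddCommGroup V] [Module ℝ V] (h : V → ℝ) : Prop :=
  ∀ (x y : V) (a b : ℝ), 0 ≤ a → 0 ≤ b → a + b = 1 → h x ^ a * h y ^ b ≤ h (a • x + b • y)

/-- `g` is a linear symmetry of the function `h`, of finite order, which moves at most `k`
dimensions: `g - 1` has rank at most `k`. For `k = 1` the nontrivial ones are the reflections
which preserve `h`. -/
def SmallSymmetry {V : Type*} [AddCommGroup V] [Module ℝ V] (k : ℕ) (h : V → ℝ)
    (g : V →ₗ[ℝ] V) : Prop :=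
  (∀ x, h (g x) = h x) ∧ (∃ N : ℕ, 0 < N ∧ g ^ N = 1) ∧
    Module.finrank ℝ (LinearMap.range (g - 1)) ≤ k

/-- The common fixed vectors of the linear symmetries of `h` of finite order which move at most `k`
dimensions form a space of dimension at most `d` (they lie in a subspace `E` of dimension at most
`d`). -/
def SmallFixedSpace {V : Type*} [AddCommGroup V] [Module ℝ V] (k d : ℕ) (h : V → ℝ) : Prop :=
  ∃ E : Submodule ℝ V, Module.finrank ℝ E ≤ d ∧
    ∀ v : V, (∀ g : V →ₗ[ℝ] V, SmallSymmetry k h g → g v = v) → v ∈ E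

/-- The constant. -/
noncomputable def constant (k d : ℕ) : ℝ :=
  if d = 0 then 1750 * k ^ 3 else 1340000 * k ^ 3 * (1 + d)

/-- **KLS for log-concave measures with symmetries of small rank and a small common fixed space.**
Let `k ≥ 1`, `d ≥ 0` and let `h` be a log-concave probability density on `ℝⁿ` such that the common
fixed space of the linear symmetries of `h` of finite order which move at most `k` dimensions has
dimension at most `d` (for instance `k = 1`: `h` depends only on `|x₁|, …, |x_{n-d}|` and on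
`x_{n-d+1}, …, x_n`, or `h` is invariant under a finite group generated by reflections whose
fixed space has dimension at most `d`; for `d = 1` this contains all densities `h (|x'|, t)` with an
arbitrary direction `t`, e.g. convex bodies with unconditional parallel sections). Let `μ = h dx`,
and let `ν` be the image of `μ` under a surjective affine map `x ↦ T x + b` onto `ℝᵐ`
(for instance `ν = μ`). Then `D_Poin(ν) ≤ C · D^Lin_Poin(ν)` with `C = 1750 k³` if `d = 0` and
`C = 1340000 k³ (1 + d)` if `d ≥ 1`: the KLS inequality with a constant which does not depend on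
the dimension `n`. -/
theorem result (n m k d : ℕ) (hk : 1 ≤ k) (h : EuclideanSpace ℝ (Fin n) → ℝ)
    (h0 : ∀ x, 0 ≤ h x) (hm : Measurable h) (hlc : LogConcave h) (hfix : SmallFixedSpace k d h)
    (μ : Measure (EuclideanSpace ℝ (Fin n)))
    (hμ : μ = volume.withDensity fun x => ENNReal.ofReal (h x)) [IsProbabilityMeasure μ]
    (T : EuclideanSpace ℝ (Fin n) →ₗ[ℝ] EuclideanSpace ℝ (Fin m)) (hT : Function.Surjective T)
    (b : EuclideanSpace ℝ (Fin m)) (D : ℝ)
    (hD : LinPoincareWith (μ.map fun x => T x + b) D) :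
    PoincareWith (μ.map fun x => T x + b) (constant k d * D) := by
  have hR : Pool.Agent.Lib.MP_8d00da_gt.h97s.FixL k d h := by
    obtain ⟨E, hE, hEv⟩ := hfix
    refine ⟨E, hE, fun v hv => hEv v fun g hg => ?_⟩
    obtain ⟨h1, ⟨N, hN, hgN⟩, h3⟩ := hg
    obtain ⟨M, rfl⟩ : ∃ M, N = M + 1 := ⟨N - 1, by omega⟩
    have e1 : g * g ^ M = 1 := by rw [← pow_succ', hgN]
    have e2 : g ^ M * g = 1 := by rw [← pow_succ, hgN]
    set G : EuclideanSpace ℝ (Fin n) ≃ₗ[ℝ] EuclideanSpace ℝ (Fin n) :=
      LinearEquiv.ofLinearMap g (g ^ M) e1 e2 with hG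
    have hGg : ∀ x, G x = g x := fun x => rfl
    have hpow : ∀ (j : ℕ) (x : EuclideanSpace ℝ (Fin n)), (G ^ j) x = (g ^ j) x := by
      intro j
      induction j with
      | zero => intro x; rfl
      | succ j ih =>
        intro x
        rw [pow_succ, pow_succ]
        exact ih (g x)
    refine hv G h1 ⟨M + 1, hN, fun x => ?_⟩ h3
    rw [hpow, hgN]
    rfl
  exact Pool.Agent.Lib.MP_8d00da_gt.h97s.fixed_space h0 hm
    (fun a ha0 ha1 x y => hlc x y (1 - a) a (by linarith) ha0.le (by ring)) hk hR hμ
    (LinearMap.toContinuousLinearMap T) hT b hD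

end Pool.Agent.Results.MP_8d00da_gt.FixedSpaceKLS
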