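import Mathlib
import Pool.Agent.Lib.MP_8d00da_gt.h97t.FMain

/-!
# The KLS inequality for anti-blocking bodies and coordinatewise monotone log-concave densities
-/

open MeasureTheory

namespace Pool.Agent.Lib.MP_8d00da_gt.Retired.MonotoneKLS

/-- `‖f - ∫ f dμ‖_{L²(μ)} ≤ D · ‖|∇f|‖_{L²(μ)}` for every Lipschitz function `f`.
The Poincaré constant `D_Poin(μ)` of the problem is the least such `D`. -/
def PoincareWith {V : Type*} [NormedAddCommGroup V] [NormedSpace ℝ V] [MeasurableSpace V]
    (μ : Measure V) (D : ℝ) : Prop :=
  ∀ f : V → ℝ, (∃ L : NNReal, LipschitzWith L f) →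
    eLpNorm (fun x => f x - ∫ y, f y ∂μ) 2 μ ≤
      ENNReal.ofReal D * eLpNorm (fun x => ‖fderiv ℝ f x‖) 2 μ

/-- The same inequality tested on linear functions `θ` only (`‖|∇θ|‖_{L²(μ)} = ‖θ‖` for a
probability measure). The constant `D^Lin_Poin(μ)` of the problem is the least such `D`. -/
def LinPoincareWith {V : Type*} [NormedAddCommGroup V] [NormedSpace ℝ V] [MeasurableSpace V]
    (μ : Measure V) (D : ℝ) : Prop :=
  ∀ θ : V →L[ℝ] ℝ, eLpNorm (fun x => θ x - ∫ y, θ y ∂μ) 2 μ ≤ ENNReal.ofReal (D * ‖θ‖)

/-- `h` is log-concave. -/
def LogConcave {V : Type*} [AddCommGroup V] [Module ℝ V] (h : V → ℝ) : Prop :=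
  ∀ (x y : V) (a b : ℝ), 0 ≤ a → 0 ≤ b → a + b = 1 → h x ^ a * h y ^ b ≤ h (a • x + b • y)

/-- `h` vanishes at the points with a negative coordinate in `I`, and where the coordinates in `I`
are nonnegative, it is non-increasing in each of them: if `0 ≤ y i ≤ x i` for `i ∈ I` and
`y i = x i` for the other `i`, then `h x ≤ h y`. If `I` is the set of all coordinates and `h` is the
indicator function of a body `K` in the positive orthant, this says that `K` is anti-blocking. -/
def MonotoneIn {n : ℕ} (I : Finset (Fin n)) (h : EuclideanSpace ℝ (Fin n) → ℝ) : Prop :=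
  (∀ x, (∃ i ∈ I, x i < 0) → h x = 0) ∧
    ∀ x y, (∀ i ∈ I, 0 ≤ y i ∧ y i ≤ x i) → (∀ i, i ∉ I → y i = x i) → h x ≤ h y

/-- The constant. -/
noncomputable def constant (d : ℕ) : ℝ := if d = 0 then 3500 else 2680000 * (1 + d)

/-- **KLS for anti-blocking bodies and coordinatewise monotone log-concave densities.**
Let `h` be a log-concave probability density on `ℝⁿ`, and let `I` be a set of coordinates, all but
at most `d`, such that `h` vanishes off `{x | x i ≥ 0 for i ∈ I}` and is non-increasing in each
coordinate `x i`, `i ∈ I`, on this set. Then `μ = h dx` satisfies `D_Poin(μ) ≤ C · D^Lin_Poin(μ)`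
with `C = 3500` if `d = 0` and `C = 2680000 (1 + d)` if `d ≥ 1`. For `d = 0` these are the
log-concave densities on the positive orthant which are non-increasing in each variable, for
instance the uniform measures on all anti-blocking convex bodies (convex corners), such as the
stable set polytopes of graphs and the independence polytopes of matroids. -/
theorem result (n d : ℕ) (I : Finset (Fin n)) (hI : n ≤ I.card + d)
    (h : EuclideanSpace ℝ (Fin n) → ℝ) (h0 : ∀ x, 0 ≤ h x) (hm : Measurable h)
    (hlc : LogConcave h) (hmon : MonotoneIn I h) (μ : Measure (EuclideanSpace ℝ (Fin n)))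
    (hμ : μ = volume.withDensity fun x => ENNReal.ofReal (h x)) [IsProbabilityMeasure μ] (D : ℝ)
    (hD : LinPoincareWith μ D) : PoincareWith μ (constant d * D) := by
  have h1 := Pool.Agent.Lib.MP_8d00da_gt.h97t.monotone_kls (I := I) h0 hm
    (fun a ha0 ha1 x y => hlc x y (1 - a) a (by linarith) ha0.le (by ring))
    ⟨hmon.1, hmon.2⟩ hI hμ hD
  have h2 : constant d = 2 * Pool.Agent.Lib.MP_8d00da_gt.h97s.CF 1 d := by
    unfold constant Pool.Agent.Lib.MP_8d00da_gt.h97s.CF
    split_ifs <;> push_cast <;> ring
  rw [h2]
  exact h1

end Pool.Agent.Lib.MP_8d00da_gt.Retired.MonotoneKLS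

/- Claim file of the former hand-in:
Proves: Let h be a log-concave probability density on R^n and I a set of all but at most d coordinates such that h(x)=0 if x_i<0 for some i in I, and h(x)<=h(y) whenever 0<=y_i<=x_i for i in I and y_i=x_i for the other i. Then mu=h dx satisfies D_Poin(mu) <= C D_Poin^Lin(mu) with C=3500 if d=0, C=2680000(1+d) if d>=1: if the Poincare inequality holds for mu with constant D for linear functions, it holds with C D for all Lipschitz functions.
Definitions: MonotoneIn I h: the condition on h above. PoincareWith, LinPoincareWith mu D: ||f - int f dmu||_{L2(mu)} <= D || |grad f| ||_{L2(mu)} for Lipschitz f, resp. linear f. constant d: C.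
Relation: Affirmative special case of Q1, C independent of n: d=0: all anti-blocking bodies (convex corners: 0<=y<=x in K implies y in K), e.g. stable set polytopes of graphs, independence polytopes of matroids, and all log-concave densities on the positive orthant non-increasing in each variable; d>=1: d further arbitrary directions. No symmetry is assumed, so it is not contained in our FixedSpaceKLS (from which it is deduced by folding x -> |x_i|), nor in RightInvariant, OrliczSumKLS. Known: C sqrt(log n) for all bodies (Klartag 2023); l_p balls and their positive parts; simplices. It is for mu itself, not for its linear images. Open: bodies without such structure.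
-/
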