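import Mathlib
import Pool.Agent.Lib.MP_8d00da_gt.h42t.TO16

/-!
# The KLS inequality for sublevel sets of sums of Orlicz functions of Euclidean seminorms, and for
such potentials with product weights on polyhedra
-/

open MeasureTheory

namespace Pool.Agent.Results.MP_8d00da_gt.OrliczSumKLS

/-- `‖f - ∫ f dμ‖_{L²(μ)} ≤ D · ‖|∇f|‖_{L²(μ)}` for every Lipschitz function `f`.
The Poincaré constant `D_Poin(μ)` of the problem is the least such `D`. -/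
def PoincareWith {V : Type*} [NormedAddCommGroup V] [NormedSpace ℝ V] [MeasurableSpace V]
    (μ : Measure V) (D : ℝ) : Prop :=
  ∀ f : V → ℝ, (∃ L : NNReal, LipschitzWith L f) →
    eLpNorm (fun x => f x - ∫ y, f y ∂μ) 2 μ ≤
      ENNReal.ofReal D * eLpNorm (fun x => ‖fderiv ℝ f x‖) 2 μ

/-- The same inequality tested on linear functions `θ` only (`‖|∇θ|‖_{L²(μ)} = ‖θ‖` for a
probability measure). The constant `D^Lin_Poin(μ)` of the problem is the least such `D`. -/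
def LinPoincareWith {V : Type*} [NormedAddCommGroup V] [NormedSpace ℝ V] [MeasurableSpace V]
    (μ : Measure V) (D : ℝ) : Prop :=
  ∀ θ : V →L[ℝ] ℝ, eLpNorm (fun x => θ x - ∫ y, θ y ∂μ) 2 μ ≤ ENNReal.ofReal (D * ‖θ‖)

/-- `ψ` is continuous on `[0, ∞)` and has a positive derivative on `(0, ∞)`, `ψ'(t)/t^δ` is
non-decreasing and `ψ'(t)/t^ρ` is non-increasing on `(0, ∞)`. For `ψ` twice differentiable the two
conditions say `δ ψ'(t) ≤ t ψ''(t) ≤ ρ ψ'(t)`. Examples: `ψ(t) = c t^p`, `1 + δ ≤ p ≤ 1 + ρ`, and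
sums of such functions. -/
def IsOrlicz (δ ρ : ℝ) (ψ : ℝ → ℝ) : Prop :=
  ContinuousOn ψ (Set.Ici 0) ∧ (∀ t, 0 < t → DifferentiableAt ℝ ψ t ∧ 0 < deriv ψ t) ∧
    MonotoneOn (fun t => deriv ψ t / t ^ δ) (Set.Ioi 0) ∧
    AntitoneOn (fun t => deriv ψ t / t ^ ρ) (Set.Ioi 0)

/-- The data of a convex function `V(x) = ∑ j, ψ_j(|P_j x - b_j|) + ⟨v, x⟩` on `ℝⁿ` (`j < N`):
linear maps `P_j ≠ 0` into `ℝᵈ`, points `b_j`, functions `ψ_j` with `IsOrlicz δ ρ ψ_j` and a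
vector `v`. -/
structure OrliczSum (n : ℕ) (δ ρ : ℝ) where
  d : ℕ
  N : ℕ
  P : Fin N → EuclideanSpace ℝ (Fin n) →ₗ[ℝ] EuclideanSpace ℝ (Fin d)
  b : Fin N → EuclideanSpace ℝ (Fin d)
  ψ : Fin N → ℝ → ℝ
  v : EuclideanSpace ℝ (Fin n)
  P_ne : ∀ j, P j ≠ 0
  orlicz : ∀ j, IsOrlicz δ ρ (ψ j)

/-- The function `V(x) = ∑ j, ψ_j(|P_j x - b_j|) + ⟨v, x⟩`. -/
noncomputable def OrliczSum.V {n : ℕ} {δ ρ : ℝ} (S : OrliczSum n δ ρ)
    (x : EuclideanSpace ℝ (Fin n)) : ℝ :=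
  ∑ j, S.ψ j ‖S.P j x - S.b j‖ + inner ℝ S.v x

/-- The product `∏ k, max(⟨a_k, x⟩ - s_k, 0)^{β_k}`. -/
noncomputable def facetProduct {n M : ℕ} (a : Fin M → EuclideanSpace ℝ (Fin n)) (s β : Fin M → ℝ)
    (x : EuclideanSpace ℝ (Fin n)) : ℝ :=
  ∏ k, (max (inner ℝ (a k) x - s k) 0) ^ β k

/-- `μ` is the uniform probability measure of the set `K`. -/
def IsUniform {n : ℕ} (μ : Measure (EuclideanSpace ℝ (Fin n)))
    (K : Set (EuclideanSpace ℝ (Fin n))) : Prop :=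
  μ = (volume K)⁻¹ • volume.restrict K

/-- `μ` is the uniform probability measure of a bounded convex body `{V ≤ L}`, `V` an Orlicz sum,
with `{V < L}` not empty. -/
def IsBodyLaw {n : ℕ} (δ ρ : ℝ) (μ : Measure (EuclideanSpace ℝ (Fin n))) : Prop :=
  ∃ (S : OrliczSum n δ ρ) (L : ℝ), Bornology.IsBounded {x | S.V x ≤ L} ∧ (∃ x, S.V x < L) ∧
    IsUniform μ {x | S.V x ≤ L}

/-- `μ` is a probability measure with a density of the form
`A exp(-V(x)) ∏_k max(⟨a_k, x⟩ - s_k, 0)^{β_k}`, `V` an Orlicz sum, `A > 0`, `a_k ≠ 0`,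
`β_k ≥ 1 + δ` (`k < M`, `M ≥ 0`). -/
def IsPolytopeLaw {n : ℕ} (δ ρ : ℝ) (μ : Measure (EuclideanSpace ℝ (Fin n))) : Prop :=
  IsProbabilityMeasure μ ∧ ∃ (S : OrliczSum n δ ρ) (M : ℕ) (a : Fin M → EuclideanSpace ℝ (Fin n))
    (s β : Fin M → ℝ) (A : ℝ), (∀ k, a k ≠ 0) ∧ (∀ k, 1 + δ ≤ β k) ∧ 0 < A ∧
      μ = volume.withDensity fun x =>
        ENNReal.ofReal (A * (Real.exp (-S.V x) * facetProduct a s β x))

/-- **KLS for sublevel sets of Orlicz sums.** For every `δ > 0` and every `ρ` there is a constant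
`C = C(δ, ρ)` such that the following holds in all dimensions. Let
`V(x) = ∑_j ψ_j(|P_j x - b_j|) + ⟨v, x⟩` on `ℝⁿ`, where `P_j ≠ 0` are linear maps `ℝⁿ → ℝᵈ`,
`b_j ∈ ℝᵈ`, `v ∈ ℝⁿ`, and `ψ_j` are Orlicz functions with `ψ_j'(t)/t^δ` non-decreasing and
`ψ_j'(t)/t^ρ` non-increasing. Let `μ` be

(a) the uniform probability measure of the convex body `K = {V ≤ L}`, if it is bounded and
`{V < L}` is not empty, or

(b) a probability measure with density `A exp(-V(x)) ∏_k max(⟨a_k, x⟩ - s_k, 0)^{β_k}`, `A > 0`,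
`a_k ≠ 0`, `β_k ≥ 1 + δ` (any number of factors), whose support is the polyhedron
`{⟨a_k, x⟩ ≥ s_k}`,

and let `ν` be the image of `μ` under a surjective affine map `x ↦ T x + w` onto `ℝᵐ` (for
instance `ν = μ`). Then `D_Poin(ν) ≤ C D^Lin_Poin(ν)`. The constant does not depend on the
dimensions, on the numbers of terms and factors and on the data. For `d = 1`, `b = 0`, `v = 0`
part (a) concerns the unit balls of all `n`-dimensional subspaces of the Orlicz and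
Musielak-Orlicz sequence spaces with such functions, for instance of `ℓ_p`, `1 < p < ∞`. -/
theorem result (δ ρ : ℝ) (hδ : 0 < δ) : ∃ C : ℝ, 0 < C ∧ ∀ (n m : ℕ)
    (μ : Measure (EuclideanSpace ℝ (Fin n))), IsBodyLaw δ ρ μ ∨ IsPolytopeLaw δ ρ μ →
    ∀ (T : EuclideanSpace ℝ (Fin n) →ₗ[ℝ] EuclideanSpace ℝ (Fin m)), Function.Surjective T →
    ∀ (w : EuclideanSpace ℝ (Fin m)) (D : ℝ), LinPoincareWith (μ.map fun x => T x + w) D →
    PoincareWith (μ.map fun x => T x + w) (C * D) := by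
  obtain ⟨δ', hδ'⟩ : ∃ δ', δ' = min δ (1 / 2) := ⟨_, rfl⟩
  have d1 : 0 < δ' := by rw [hδ']; exact lt_min hδ (by norm_num)
  have d2 : δ' ≤ 1 / 2 := by rw [hδ']; exact min_le_right _ _
  have d3 : δ' ≤ δ := by rw [hδ']; exact min_le_left _ _
  obtain ⟨q, hq⟩ : ∃ q : ℕ, 2 * ρ ≤ (q : ℝ) := ⟨_, Nat.le_ceil _⟩
  have hρ : ρ ≤ ((q : ℝ) + 2) / 2 + 1 := by linarith
  have H : ∀ {n : ℕ} (S : OrliczSum n δ ρ) j,
      Pool.Agent.Lib.MP_8d00da_gt.h42t.Orl δ' (((q : ℝ) + 2) / 2 + 1) (S.ψ j)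
        (deriv (S.ψ j)) := by
    intro n S j
    obtain ⟨h1, h2, h3, h4⟩ := S.orlicz j
    refine Pool.Agent.Lib.MP_8d00da_gt.h42t.Orl.weaken (δ := δ) (ρ := ρ)
      ⟨h1, fun t ht => (h2 t ht).1.hasDerivAt, fun t ht => (h2 t ht).2, ?_, ?_⟩ d3 hρ
    · intro s t hs hst
      have ht : 0 < t := hs.trans_le hst
      have h5 := h3 (Set.mem_Ioi.2 hs) (Set.mem_Ioi.2 ht) hst
      simp only at h5
      rw [div_le_div_iff₀ (Real.rpow_pos_of_pos hs _) (Real.rpow_pos_of_pos ht _)] at h5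
      rw [Real.div_rpow ht.le hs.le, mul_div_assoc', div_le_iff₀ (Real.rpow_pos_of_pos hs _)]
      exact h5
    · intro s t hs hst
      have ht : 0 < t := hs.trans_le hst
      have h5 := h4 (Set.mem_Ioi.2 hs) (Set.mem_Ioi.2 ht) hst
      simp only at h5
      rw [div_le_div_iff₀ (Real.rpow_pos_of_pos ht _) (Real.rpow_pos_of_pos hs _)] at h5
      rw [Real.div_rpow ht.le hs.le, mul_div_assoc', le_div_iff₀ (Real.rpow_pos_of_pos hs _)]
      exact h5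
  obtain ⟨Q, hQ⟩ : ∃ Q, Q = Pool.Agent.Lib.MP_8d00da_gt.h42t.cO q
      (Pool.Agent.Lib.MP_8d00da_gt.h42t.Lo δ' (((q : ℝ) + 2) / 2 + 1)) (4 / δ') δ' := ⟨_, rfl⟩
  have hQ0 : 0 ≤ Q := by
    rw [hQ]
    refine Pool.Agent.Lib.MP_8d00da_gt.h42t.cO_nonneg ?_ (by positivity) d1
    unfold Pool.Agent.Lib.MP_8d00da_gt.h42t.Lo
    positivity
  have hCD : Q ≤ (√Q + 1) ^ 2 := by
    have h1 := Real.sq_sqrt hQ0
    have h2 := Real.sqrt_nonneg Q
    nlinarith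
  have hC0 : 0 < √Q + 1 := by positivity
  have hP' : ∀ {n : ℕ} (S : OrliczSum n δ ρ) j, LinearMap.toContinuousLinearMap (S.P j) ≠ 0 := by
    intro n S j h0
    apply S.P_ne j
    refine LinearMap.ext fun x => ?_
    have h1 := DFunLike.congr_fun h0 x
    simpa using h1
  refine ⟨√Q + 1, hC0, fun n m μ hμ T hT w D hD => ?_⟩
  rcases hμ with ⟨S, L, hbd, hne, hμ⟩ | ⟨hprob, S, M, a, s, β, A, ha, hβ, hA, hμ⟩
  · exact Pool.Agent.Lib.MP_8d00da_gt.h42t.body_final_o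
      (P := fun j => LinearMap.toContinuousLinearMap (S.P j)) d1 d2 (H S) (hP' S) S.b S.v hbd
      hne hμ le_rfl hC0.le (hQ ▸ hCD) (LinearMap.toContinuousLinearMap T) hT w hD
  · exact Pool.Agent.Lib.MP_8d00da_gt.h42t.dens_final_o
      (P := fun j => LinearMap.toContinuousLinearMap (S.P j)) d1 d2 (H S) (hP' S) S.b S.v ha s
      (fun k => by linarith [hβ k]) hA hμ le_rfl hC0.le (hQ ▸ hCD)
      (LinearMap.toContinuousLinearMap T) hT w hD

end Pool.Agent.Results.MP_8d00da_gt.OrliczSumKLS
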