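import Mathlib
import Pool.Agent.Lib.MP_8d00da_gt.h42k.KFinal

/-!
# The KLS inequality for quadratic forms with the factor `C (log log n)³`, all log-concave measures
-/

open MeasureTheory

namespace Pool.Agent.Results.MP_8d00da_gt.QuadraticKLS

/-- The Poincaré inequality for `μ` tested on linear functions `θ` only
(`‖|∇θ|‖_{L²(μ)} = ‖θ‖` for a probability measure). The constant `D^Lin_Poin(μ)` of the problem is
the least such `D`; its square is the largest variance of a linear form of norm one. -/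
def LinPoincareWith {V : Type*} [NormedAddCommGroup V] [NormedSpace ℝ V] [MeasurableSpace V]
    (μ : Measure V) (D : ℝ) : Prop :=
  ∀ θ : V →L[ℝ] ℝ, eLpNorm (fun x => θ x - ∫ y, θ y ∂μ) 2 μ ≤ ENNReal.ofReal (D * ‖θ‖)

/-- `h` is log-concave. -/
def LogConcave {V : Type*} [AddCommGroup V] [Module ℝ V] (h : V → ℝ) : Prop :=
  ∀ (x y : V) (a b : ℝ), 0 ≤ a → 0 ≤ b → a + b = 1 → h x ^ a * h y ^ b ≤ h (a • x + b • y)

/-- The quadratic form `x ↦ ∑ A_ij (x_i - b_i) (x_j - b_j)`, `b` the barycentre of `μ`. -/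
noncomputable def quadForm {n : ℕ} (μ : Measure (EuclideanSpace ℝ (Fin n)))
    (A : Matrix (Fin n) (Fin n) ℝ) (x : EuclideanSpace ℝ (Fin n)) : ℝ :=
  ∑ i, ∑ j, A i j * (x i - ∫ y, y i ∂μ) * (x j - ∫ y, y j ∂μ)

/-- **The KLS inequality for quadratic forms up to `(log log n)³`:** for every log-concave
probability measure `μ` on `ℝⁿ` and every matrix `A`,
`Var_μ ⟨A(x-b), x-b⟩ ≤ C (log log n)³ D^Lin_Poin(μ)⁴ ‖A‖_HS²`. -/
theorem result : ∃ C : ℝ, 0 < C ∧ ∀ (n : ℕ) (h : EuclideanSpace ℝ (Fin n) → ℝ),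
    (∀ x, 0 ≤ h x) → Measurable h → LogConcave h →
    ∀ μ : Measure (EuclideanSpace ℝ (Fin n)),
      μ = volume.withDensity (fun x => ENNReal.ofReal (h x)) → IsProbabilityMeasure μ →
      ∀ D : ℝ, LinPoincareWith μ D → ∀ A : Matrix (Fin n) (Fin n) ℝ,
        ∫ x, (quadForm μ A x - ∫ y, quadForm μ A y ∂μ) ^ 2 ∂μ ≤
          C * Real.log (Real.log (n + 16)) ^ 3 * D ^ 4 * ∑ i, ∑ j, A i j ^ 2 :=
  Pool.Agent.Lib.MP_8d00da_gt.h42k.quad_final

end Pool.Agent.Results.MP_8d00da_gt.QuadraticKLS
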