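import Mathlib
import Pool.Agent.Lib.MP_8d00da_gt.h25.Marg
import Pool.Agent.Lib.MP_8d00da_gt.h25.Core2

/-!
# The KLS inequality for log-concave measures on matrices which are invariant under right
multiplication by orthogonal matrices
-/

open MeasureTheory

namespace Pool.Agent.Lib.MP_8d00da_gt.Retired.RightInvariant

/-- `‖f - ∫ f dμ‖_{L²(μ)} ≤ D · ‖|∇f|‖_{L²(μ)}` for every Lipschitz function `f`.
The Poincaré constant `D_Poin(μ)` of the problem is the least such `D`. -/
def PoincareWith {V : Type*} [NormedAddCommGroup V] [NormedSpace ℝ V] [MeasurableSpace V]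
    (μ : Measure V) (D : ℝ) : Prop :=
  ∀ f : V → ℝ, (∃ L : NNReal, LipschitzWith L f) →
    eLpNorm (fun x => f x - ∫ y, f y ∂μ) 2 μ ≤
      ENNReal.ofReal D * eLpNorm (fun x => ‖fderiv ℝ f x‖) 2 μ

/-- The same inequality tested on linear functions `θ` only (`‖|∇θ|‖_{L²(μ)} = ‖θ‖` for a
probability measure). The constant `D^Lin_Poin(μ)` of the problem is the least such `D`. -/
def LinPoincareWith {V : Type*} [NormedAddCommGroup V] [NormedSpace ℝ V] [MeasurableSpace V]
    (μ : Measure V) (D : ℝ) : Prop :=
  ∀ θ : V →L[ℝ] ℝ, eLpNorm (fun x => θ x - ∫ y, θ y ∂μ) 2 μ ≤ ENNReal.ofReal (D * ‖θ‖)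

/-- The Euclidean space of real `p × q` matrices, with the Frobenius (Hilbert–Schmidt) norm. -/
abbrev Mat (p q : ℕ) := EuclideanSpace ℝ (Fin p × Fin q)

/-- The matrix product `x O` of a `p × q` matrix `x` and a `q × q` matrix `O`. -/
noncomputable def rightMul {p q : ℕ} (x : Mat p q) (O : Matrix (Fin q) (Fin q) ℝ) : Mat p q :=
  WithLp.toLp 2 fun ij => ∑ l, x (ij.1, l) * O l ij.2

/-- **KLS for right-invariant log-concave measures on matrices.** Let `q ≥ 3` and let `h` be a
log-concave probability density on the space of real `p × q` matrices with `h (x O) = h x` for all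
orthogonal `q × q` matrices `O`. The measure `μ = h dx` satisfies
`D_Poin(μ) ≤ 10⁴ · max(1, p / q) · D^Lin_Poin(μ)`. -/
theorem result (p q : ℕ) (hq : 3 ≤ q) (h : Mat p q → ℝ) (h0 : ∀ x, 0 ≤ h x) (hm : Measurable h)
    (hlc : ∀ (x y : Mat p q) (a b : ℝ), 0 ≤ a → 0 ≤ b → a + b = 1 →
      h x ^ a * h y ^ b ≤ h (a • x + b • y))
    (hinv : ∀ O ∈ Matrix.orthogonalGroup (Fin q) ℝ, ∀ x, h (rightMul x O) = h x)
    (μ : Measure (Mat p q)) (hμ : μ = volume.withDensity fun x => ENNReal.ofReal (h x))
    [IsProbabilityMeasure μ] (D : ℝ) (hD : LinPoincareWith μ D) :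
    PoincareWith μ (10 ^ 4 * max 1 ((p : ℝ) / q) * D) :=
  Pool.Agent.Lib.MP_8d00da_gt.h25.final_of_core
    (K := 10 ^ 4 * Pool.Agent.Lib.MP_8d00da_gt.h25.La p q)
    (mul_nonneg (by norm_num) (zero_le_one.trans Pool.Agent.Lib.MP_8d00da_gt.h25.La_one))
    (Pool.Agent.Lib.MP_8d00da_gt.h25.core_stmt hq fun _ _ _ H hinv _ hσ hlin _ hu _ ht =>
      Pool.Agent.Lib.MP_8d00da_gt.h25.row_tail H (by omega) hinv hσ hlin hu ht)
    h h0 hm hlc
    (fun O hO x => hinv O ((Matrix.mem_orthogonalGroup_iff _ _).2 hO) x) μ hμ D hD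

end Pool.Agent.Lib.MP_8d00da_gt.Retired.RightInvariant

/- Claim file of the former hand-in:
Proves: Let q>=3, p any, and h a log-concave probability density on the Euclidean space of real p x q matrices (Frobenius norm) with h(xO)=h(x) for every orthogonal q x q matrix O; let mu=h dx. If the Poincare inequality holds for mu with constant D for linear functions, it holds with constant 10^4 max(1,p/q) D for all Lipschitz functions: D_Poin(mu) <= 10^4 max(1,p/q) D_Poin^Lin(mu).
Definitions: Mat p q: R^(p x q). rightMul x O: matrix product xO. PoincareWith mu D: ||f - int f dmu||_{L2(mu)} <= D || |grad f| ||_{L2(mu)} for every Lipschitz f (D_Poin is the least D). LinPoincareWith mu D: ||f - int f dmu||_{L2(mu)} <= D|f| for every linear form f, |f| its dual norm.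
Relation: Affirmative special case of Q1 in its equivalent form D_Poin(mu) <= C D_Poin^Lin(mu) for log-concave mu: C universal when p<=q, in all dimensions, for every convex body (h constant on K) or log-concave measure invariant under right multiplication by O(q), e.g. balls of all unitarily invariant norms, all Schatten classes, unit balls of B(l_2^q,E) for every p-dimensional normed space E. Known near it: p=1 (radial, Bobkov; Huet), thin-shell/variance bounds for Schatten balls (Radke-Vritsiou; Dadoun-Fradelizi-Guedon-Zitt) and with symmetries (Barthe-Cordero-Erausquin). We know no KLS bound of this kind.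
-/
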